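import Mathlib

/-!
Existence of a derivation sending a given transcendental element to one (characteristic zero).
-/

set_option autoImplicit false
set_option linter.style.haveILetI false

namespace Pool.Agent.MP_a59382_lc

open Polynomial

lemma formallySmooth_field (F E : Type*) [Field F] [Field E] [Algebra F E] [CharZero F] :
    Algebra.FormallySmooth F E := by
  obtain ⟨s, hs⟩ := exists_isTranscendenceBasis F E
  have h1 := hs.isAlgebraic_field
  have : Algebra.IsSeparable (IntermediateField.adjoin F (Set.range ((↑) : s → E))) E :=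
    Algebra.IsAlgebraic.isSeparable_of_perfectField
  exact .of_algebraicIndependent_of_isSeparable hs.1

theorem exists_derivation {K E : Type*} [Field K] [Field E] [CharZero K] (φ : K →+* E) (t : E)
    (ht : ∀ p : K[X], p.eval₂ φ t = 0 → p = 0) :
    ∃ D : E → E, (∀ x y, D (x + y) = D x + D y) ∧ (∀ x y, D (x * y) = D x * y + x * D y) ∧
      (∀ k, D (φ k) = 0) ∧ D t = 1 := by
  letI : Algebra K[X] E := (eval₂RingHom φ t).toAlgebra
  have hinj : Function.Injective (algebraMap K[X] E) := by
    rw [injective_iff_map_eq_zero]
    intro p hp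
    exact ht p hp
  haveI : FaithfulSMul K[X] E := (faithfulSMul_iff_algebraMap_injective _ _).2 hinj
  letI : Algebra (FractionRing K[X]) E := FractionRing.liftAlgebra K[X] E
  haveI : IsScalarTower K[X] (FractionRing K[X]) E := FractionRing.isScalarTower_liftAlgebra _ _
  haveI : CharZero (FractionRing K[X]) :=
    charZero_of_injective_algebraMap (IsFractionRing.injective K[X] (FractionRing K[X]))
  haveI h1 : Algebra.FormallySmooth (FractionRing K[X]) E := formallySmooth_field _ _
  haveI h2 : Algebra.FormallySmooth K[X] (FractionRing K[X]) :=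
    Algebra.FormallySmooth.of_isLocalization (nonZeroDivisors K[X])
  haveI h3 : Algebra.FormallySmooth K[X] E := Algebra.FormallySmooth.comp _ (FractionRing K[X]) _
  let σ : K[X] →+* DualNumber E :=
    eval₂RingHom ((TrivSqZeroExt.inlHom E E).comp φ) (TrivSqZeroExt.inl t + TrivSqZeroExt.inr 1)
  letI : Algebra K[X] (DualNumber E) := σ.toAlgebra
  let f0 : DualNumber E →+* E := (TrivSqZeroExt.fstHom E E E).toRingHom
  have hcomp : f0.comp σ = eval₂RingHom φ t := by
    apply Polynomial.ringHom_ext
    · intro k; simp [σ, f0]
    · simp [σ, f0]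
  let g : DualNumber E →ₐ[K[X]] E :=
    { f0 with
      commutes' := fun p => by
        have := congrArg (fun h : K[X] →+* E => h p) hcomp
        exact this }
  have hg : Function.Surjective g := fun x => ⟨TrivSqZeroExt.inl x, by simp [g, f0]⟩
  have hnil : IsNilpotent (RingHom.ker (g : DualNumber E →+* E)) := by
    refine ⟨2, ?_⟩
    rw [Submodule.pow_succ, Submodule.pow_one, Ideal.zero_eq_bot, eq_bot_iff, Ideal.mul_le]
    intro x hx y hy
    have hx' : x.fst = 0 := hx
    have hy' : y.fst = 0 := hy
    rw [Ideal.mem_bot]
    ext <;> simp [hx', hy']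
  let l := Algebra.FormallySmooth.liftOfSurjective (AlgHom.id K[X] E) g hg hnil
  have hl : ∀ x, (l x).fst = x := fun x =>
    Algebra.FormallySmooth.liftOfSurjective_apply (AlgHom.id K[X] E) g hg hnil x
  have hlp : ∀ p : K[X], l (p.eval₂ φ t) = σ p := fun p => l.commutes p
  refine ⟨fun x => (l x).snd, fun x y => by simp, fun x y => ?_, fun k => ?_, ?_⟩
  · simp [hl]; ring
  · have := hlp (C k)
    rw [eval₂_C] at this
    simp [this, σ]
  · have := hlp X
    rw [eval₂_X] at this
    simp [this, σ]

end Pool.Agent.MP_a59382_lc
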